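import Mathlib

namespace Pool.Agent.Results.MP_69ced1_co.Disproof

open SimpleGraph

/-- `S` is a total dominating set: every vertex has a neighbour in `S`. -/
def IsTotalDom {V : Type} (G : SimpleGraph V) (S : Finset V) : Prop :=
  ∀ v, ∃ w ∈ S, G.Adj v w

/-- The total domination number. -/
noncomputable def gammaT {V : Type} (G : SimpleGraph V) : ℕ :=
  sInf {k | ∃ S : Finset V, IsTotalDom G S ∧ S.card = k}

def M (b : Bool) (r c : Fin 24) : Bool :=
  if c.val < 12 then (decide (r = c) == b) else (decide (r = c) != b)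

def rel (b : Bool) : Fin 24 ⊕ Fin 24 → Fin 24 ⊕ Fin 24 → Bool
  | .inl r, .inr c => M b r c
  | .inr c, .inl r => M b r c
  | _, _ => false

def H (b : Bool) : SimpleGraph (Fin 24 ⊕ Fin 24) where
  Adj u v := rel b u v = true
  symm := ⟨by rintro (a | a) (c | c) h <;> simpa [rel] using h⟩
  loopless := ⟨by rintro (a | a) h <;> simp [rel] at h⟩

theorem noiso (b : Bool) : ∀ v, ∃ w, (H b).Adj v w := by
  have h1 : ∀ b : Bool, ∀ r : Fin 24, ∃ c, M b r c = true := by decide
  have h2 : ∀ b : Bool, ∀ c : Fin 24, ∃ r, M b r c = true := by decide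
  rintro (a | a)
  · obtain ⟨c, hc⟩ := h1 b a
    exact ⟨.inr c, hc⟩
  · obtain ⟨c, hc⟩ := h2 b a
    exact ⟨.inl c, hc⟩

theorem lower (b : Bool) : 14 ≤ gammaT (H b) := by
  have hne : {k | ∃ S : Finset (Fin 24 ⊕ Fin 24), IsTotalDom (H b) S ∧ S.card = k}.Nonempty :=
    ⟨_, Finset.univ, fun v => by
      obtain ⟨w, hw⟩ := noiso b v
      exact ⟨w, Finset.mem_univ _, hw⟩, rfl⟩
  obtain ⟨S, hS, hk⟩ := Nat.sInf_mem hne
  unfold gammaT
  rw [← hk]
  have h3 : ∀ b : Bool, ∀ c : Fin 24, ∃ r, M b r c = false := by decide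
  have h4 : ∀ b : Bool, ∀ r c : Fin 24, decide (c.val < 12) = b → M b r c = true → r = c := by
    decide
  obtain ⟨w1, hw1, ha1⟩ := hS (.inl 0)
  rcases w1 with w1 | w1
  · exact absurd ha1 (by simp [H, rel])
  obtain ⟨r0, hr0⟩ := h3 b w1
  obtain ⟨w2, hw2, ha2⟩ := hS (.inl r0)
  rcases w2 with w2 | w2
  · exact absurd ha2 (by simp [H, rel])
  have hne : w1 ≠ w2 := by
    rintro rfl
    have : M b r0 w1 = true := ha2
    simp [hr0] at this
  let A : Finset (Fin 24) := Finset.univ.filter (fun c => decide (c.val < 12) = b)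
  have hA : A.card = 12 := by cases b <;> decide
  have hsub : A.disjSum {w1, w2} ⊆ S := by
    rintro (x | x) hx
    · have hx' : decide (x.val < 12) = b := by simpa [A] using hx
      obtain ⟨w, hw, ha⟩ := hS (.inr x)
      rcases w with w | w
      · have : w = x := h4 b w x hx' ha
        exact this ▸ hw
      · exact absurd ha (by simp [H, rel])
    · have hx' : x = w1 ∨ x = w2 := by simpa using hx
      rcases hx' with rfl | rfl <;> assumption
  have := Finset.card_le_card hsub
  rw [Finset.card_disjSum, hA, Finset.card_pair hne] at this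
  exact this

theorem result : ¬ ∀ s : ℕ, 1 ≤ s → ∀ G₁ G₂ : SimpleGraph (Fin s ⊕ Fin s),
    Disjoint G₁.edgeSet G₂.edgeSet →
    G₁.edgeSet ∪ G₂.edgeSet = (completeBipartiteGraph (Fin s) (Fin s)).edgeSet →
    (∀ v, ∃ w, G₁.Adj v w) → (∀ v, ∃ w, G₂.Adj v w) →
    gammaT G₁ * gammaT G₂ ≤ 8 * s := by
  intro h
  have h5 : ∀ r c : Fin 24, M false r c = !M true r c := by decide
  have := h 24 (by norm_num) (H true) (H false) ?_ ?_ (noiso _) (noiso _)
  · have h1 := lower true
    have h2 := lower false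
    nlinarith
  · rw [Set.disjoint_left]
    intro e
    induction e using Sym2.ind with
    | _ u v =>
      rcases u with u | u <;> rcases v with v | v <;> simp [H, rel, h5]
  · ext e
    induction e using Sym2.ind with
    | _ u v =>
      rcases u with u | u <;> rcases v with v | v <;> simp [H, rel, h5]

end Pool.Agent.Results.MP_69ced1_co.Disproof
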